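import Mathlib
import Pool.Agent.Helper70_Cov.Main

/-!
# Semigroup and subgroup covering numbers of a group can differ

There is a group which is a union of at most six (and not of two) proper subsemigroups but not a
union of finitely many proper subgroups. There are also such groups whose subgroup covering number
is any given `p + 1`, `p` prime.
-/

set_option autoImplicit false

namespace Pool.Agent.Results.MP_7fa642_al.CoveringNumbersDiffer

open Pool.Agent.Helper70_Cov
open scoped Pointwise

/-- The semigroup covering number: the least number of proper (nonempty) subsemigroups whose union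
is the group, `⊤` if there is no finite such family. -/
noncomputable def sigmaS (G : Type) [Group G] : ℕ∞ :=
  sInf {n : ℕ∞ | ∃ F : Finset (Subsemigroup G),
    (∀ S ∈ F, (S : Set G).Nonempty ∧ (S : Set G) ≠ Set.univ) ∧
    (⋃ S ∈ F, (S : Set G)) = Set.univ ∧ n = (F.card : ℕ∞)}

/-- The subgroup covering number: the least number of proper subgroups whose union is the group,
`⊤` if there is no finite such family. -/
noncomputable def sigmaG (G : Type) [Group G] : ℕ∞ :=
  sInf {n : ℕ∞ | ∃ F : Finset (Subgroup G),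
    (∀ H ∈ F, (H : Set G) ≠ Set.univ) ∧
    (⋃ H ∈ F, (H : Set G)) = Set.univ ∧ n = (F.card : ℕ∞)}

theorem three_le {G : Type} [Group G] (hG : NoTotal G) : 3 ≤ sigmaS G := by
  classical
  apply le_sInf
  rintro n ⟨F, hF, hcov, rfl⟩
  have hmem : ∀ g : G, ∃ S ∈ F, g ∈ S := fun g => by
    have : g ∈ (⋃ S ∈ F, (S : Set G)) := by rw [hcov]; trivial
    simpa using this
  have hprop : ∀ S ∈ F, ¬ ∀ g, g ∈ S := fun S hS h => (hF S hS).2 (Set.eq_univ_of_forall h)
  by_contra hcon
  have hcard : F.card < 3 := by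
    have := not_le.mp hcon
    exact_mod_cast this
  -- the family is contained in a pair
  have hpair : ∃ A ∈ F, ∃ B ∈ F, ∀ S ∈ F, S = A ∨ S = B := by
    obtain ⟨A, hA, -⟩ := hmem 1
    by_cases h : ∃ B ∈ F, B ≠ A
    · obtain ⟨B, hB, hBA⟩ := h
      refine ⟨A, hA, B, hB, fun S hS => ?_⟩
      by_contra hS'
      push Not at hS'
      have h3 : ({A, B, S} : Finset (Subsemigroup G)).card ≤ F.card := by
        apply Finset.card_le_card
        intro X hX
        simp only [Finset.mem_insert, Finset.mem_singleton] at hX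
        rcases hX with rfl | rfl | rfl <;> assumption
      have h4 : ({A, B, S} : Finset (Subsemigroup G)).card = 3 := by
        rw [Finset.card_eq_three]
        exact ⟨A, B, S, hBA.symm, hS'.1.symm, hS'.2.symm, rfl⟩
      omega
    · push Not at h
      exact ⟨A, hA, A, hA, fun S hS => Or.inl (h S hS)⟩
  obtain ⟨A, hA, B, hB, hAB⟩ := hpair
  have hc : ∀ g, g ∈ A ∨ g ∈ B := fun g => by
    obtain ⟨S, hS, hg⟩ := hmem g
    rcases hAB S hS with rfl | rfl
    · exact Or.inl hg
    · exact Or.inr hg
  rcases total_of_two hc with h | h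
  · exact hprop A hA (hG A h)
  · exact hprop B hB (hG B h)

theorem le_six {G Q : Type} [Group G] [Group Q] (f : G →* Q) (hf : Function.Surjective f)
    (S : Fin 3 × ℤˣ → Subsemigroup Q) (hS : ∀ i, S i ≠ ⊤) (hcov : ∀ g, ∃ i, g ∈ S i) :
    sigmaS G ≤ 6 := by
  classical
  have hprop : ∀ i, ∃ g, g ∉ S i := fun i => by
    by_contra hcon
    push Not at hcon
    exact hS i ((Subsemigroup.eq_top_iff' _).mpr hcon)
  let I := (Finset.univ : Finset (Fin 3 × ℤˣ)).filter fun i => ((S i : Set Q)).Nonempty
  let F : Finset (Subsemigroup G) := I.image fun i => (S i).comap f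
  have h1 : sigmaS G ≤ (F.card : ℕ∞) := by
    apply sInf_le
    refine ⟨F, ?_, ?_, rfl⟩
    · intro X hX
      obtain ⟨i, hi, rfl⟩ := Finset.mem_image.mp hX
      obtain ⟨q, hq⟩ := (Finset.mem_filter.mp hi).2
      obtain ⟨g, rfl⟩ := hf q
      refine ⟨⟨g, hq⟩, fun huniv => ?_⟩
      obtain ⟨q', hq'⟩ := hprop i
      obtain ⟨g', rfl⟩ := hf q'
      apply hq'
      have : g' ∈ (((S i).comap f : Subsemigroup G) : Set G) := by rw [huniv]; trivial
      exact this
    · apply Set.eq_univ_of_forall
      intro g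
      obtain ⟨i, hi⟩ := hcov (f g)
      simp only [Set.mem_iUnion]
      exact ⟨(S i).comap f, Finset.mem_image.mpr ⟨i, Finset.mem_filter.mpr
        ⟨Finset.mem_univ i, ⟨f g, hi⟩⟩, rfl⟩, hi⟩
  have h2 : F.card ≤ 6 := by
    refine Finset.card_image_le.trans ((Finset.card_filter_le _ _).trans ?_)
    simp
  exact h1.trans (by exact_mod_cast h2)

theorem sigmaG_top {G : Type} [Group G] (hG : NoFin G) : sigmaG G = ⊤ := by
  rw [sigmaG, sInf_eq_top]
  rintro n ⟨F, hF, hcov, rfl⟩
  exfalso
  have hcov' : ⋃ H ∈ F, (1 : G) • (H : Set G) = Set.univ := by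
    rw [← hcov]; simp
  obtain ⟨H, hH, hfin⟩ := Subgroup.exists_finiteIndex_of_leftCoset_cover hcov'
  apply hF H hH
  rw [hG H hfin]
  rfl

/-- The elementary abelian group of rank two. -/
abbrev El (p : ℕ) : Type := Multiplicative (ZMod p) × Multiplicative (ZMod p)

/-- the `p + 1` subgroups -/
def line (G : Type) [Group G] (p : ℕ) : Option (ZMod p) → Subgroup (G × El p)
  | none =>
    { carrier := {x | x.2.1.toAdd = 0}
      one_mem' := rfl
      mul_mem' := fun {x y} hx hy => by
        simp only [Set.mem_ofPred_eq] at *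
        rw [Prod.snd_mul, Prod.fst_mul, toAdd_mul, hx, hy, add_zero]
      inv_mem' := fun {x} hx => by
        simp only [Set.mem_ofPred_eq] at *
        rw [Prod.snd_inv, Prod.fst_inv, toAdd_inv, hx, neg_zero] }
  | some c =>
    { carrier := {x | x.2.2.toAdd = c * x.2.1.toAdd}
      one_mem' := by simp
      mul_mem' := fun {x y} hx hy => by
        simp only [Set.mem_ofPred_eq] at *
        rw [Prod.snd_mul, Prod.fst_mul, Prod.snd_mul, toAdd_mul, toAdd_mul, hx, hy, mul_add]
      inv_mem' := fun {x} hx => by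
        simp only [Set.mem_ofPred_eq] at *
        rw [Prod.snd_inv, Prod.fst_inv, Prod.snd_inv, toAdd_inv, toAdd_inv, hx, mul_neg] }

theorem sigmaG_le (G : Type) [Group G] {p : ℕ} (hp : p.Prime) : sigmaG (G × El p) ≤ p + 1 := by
  classical
  have : Fact p.Prime := ⟨hp⟩
  let F : Finset (Subgroup (G × El p)) := Finset.univ.image (line G p)
  have h1 : sigmaG (G × El p) ≤ (F.card : ℕ∞) := by
    apply sInf_le
    refine ⟨F, ?_, ?_, rfl⟩
    · intro H hH huniv
      obtain ⟨o, -, rfl⟩ := Finset.mem_image.mp hH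
      cases o with
      | none =>
        have h : ((1 : G), (Multiplicative.ofAdd (1 : ZMod p), (1 : Multiplicative (ZMod p)))) ∈
            (line G p none : Set (G × El p)) := by rw [huniv]; trivial
        exact one_ne_zero (h : (1 : ZMod p) = 0)
      | some c =>
        have h : ((1 : G), ((1 : Multiplicative (ZMod p)), Multiplicative.ofAdd (1 : ZMod p))) ∈
            (line G p (some c) : Set (G × El p)) := by rw [huniv]; trivial
        have h' : (1 : ZMod p) = c * 0 := h
        rw [mul_zero] at h'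
        exact one_ne_zero h'
    · apply Set.eq_univ_of_forall
      rintro ⟨g, a, b⟩
      simp only [Set.mem_iUnion]
      by_cases ha : a.toAdd = 0
      · exact ⟨line G p none, Finset.mem_image.mpr ⟨none, Finset.mem_univ _, rfl⟩, ha⟩
      · refine ⟨line G p (some (b.toAdd * (a.toAdd)⁻¹)),
          Finset.mem_image.mpr ⟨_, Finset.mem_univ _, rfl⟩, ?_⟩
        change b.toAdd = b.toAdd * (a.toAdd)⁻¹ * a.toAdd
        rw [mul_assoc, inv_mul_cancel₀ ha, mul_one]
  have h2 : F.card ≤ p + 1 := by
    refine Finset.card_image_le.trans ?_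
    simp [ZMod.card]
  exact h1.trans (by exact_mod_cast h2)

theorem index_ge {G : Type} [Group G] (hG : NoFin G) {p : ℕ} (hp : p.Prime)
    (H : Subgroup (G × El p)) (hH : H ≠ ⊤) (hfin : H.index ≠ 0) : p ≤ H.index := by
  have : Fact p.Prime := ⟨hp⟩
  have hf : H.FiniteIndex := ⟨hfin⟩
  have hfc : (H.comap (MonoidHom.inl G (El p))).FiniteIndex := ⟨by
    rw [Subgroup.index_comap]
    exact (Subgroup.instFiniteIndex_subgroupOf H (MonoidHom.inl G (El p)).range).index_ne_zero⟩
  have h1 : H.comap (MonoidHom.inl G (El p)) = ⊤ := hG _ hfc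
  have h2 : ∀ g : G, (g, (1 : El p)) ∈ H := fun g => by
    have : g ∈ H.comap (MonoidHom.inl G (El p)) := by rw [h1]; trivial
    exact this
  set K : Subgroup (El p) := H.comap (MonoidHom.inr G (El p)) with hK
  have h3 : H = K.comap (MonoidHom.snd G (El p)) := by
    ext ⟨g, f⟩
    change (g, f) ∈ H ↔ ((1 : G), f) ∈ H
    have e : (g, f) = (g, (1 : El p)) * (1, f) := by simp
    rw [e]
    exact H.mul_mem_cancel_left (h2 g)
  have h4 : H.index = K.index := by
    conv_lhs => rw [h3]
    exact Subgroup.index_comap_of_surjective K Prod.snd_surjective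
  have hKt : K ≠ ⊤ := by
    rintro hKt
    apply hH
    rw [h3, hKt, Subgroup.comap_top]
  have h5 : K.index ∣ p ^ 2 := by
    have := K.index_dvd_card
    have hc : Nat.card (El p) = p ^ 2 := by
      rw [Nat.card_prod]
      simp [pow_two]
    rwa [hc] at this
  obtain ⟨i, hi, hi'⟩ := (Nat.dvd_prime_pow hp).mp h5
  rw [h4, hi']
  cases i with
  | zero =>
    exfalso
    rw [pow_zero, Subgroup.index_eq_one] at hi'
    exact hKt hi'
  | succ i => exact Nat.le_self_pow (Nat.succ_ne_zero i) p

theorem le_sigmaG {G : Type} [Group G] (hG : NoFin G) {p : ℕ} (hp : p.Prime) :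
    (p + 1 : ℕ∞) ≤ sigmaG (G × El p) := by
  classical
  apply le_sInf
  rintro n ⟨F, hF, hcov, rfl⟩
  have hcov' : ⋃ H ∈ F, (fun _ => (1 : G × El p)) H • ((id H : Subgroup (G × El p)) : Set (G × El p))
      = Set.univ := by
    rw [← hcov]; simp
  have hne : ∀ H ∈ F, H ≠ ⊤ := fun H hH h => hF H hH (by rw [h]; rfl)
  have hp0 : (0 : ℚ) < p := by exact_mod_cast hp.pos
  have hterm : ∀ H ∈ F, (((id H : Subgroup (G × El p)).index : ℚ))⁻¹ ≤ (p : ℚ)⁻¹ := by
    intro H hH
    rcases eq_or_ne H.index 0 with h | h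
    · simp only [id, h]
      rw [Nat.cast_zero, inv_zero]
      positivity
    · have := index_ge hG hp H (hne H hH) h
      simp only [id]
      gcongr
  have hsum := Subgroup.one_le_sum_inv_index_of_leftCoset_cover hcov'
  have hle : (∑ H ∈ F, (((id H : Subgroup (G × El p)).index : ℚ))⁻¹) ≤ F.card * (p : ℚ)⁻¹ := by
    have := Finset.sum_le_sum hterm
    rwa [Finset.sum_const, nsmul_eq_mul] at this
  have hcard : p ≤ F.card := by
    have h := hsum.trans hle
    rw [← div_eq_mul_inv, le_div_iff₀ hp0, one_mul] at h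
    exact_mod_cast h
  rcases hcard.lt_or_eq with h | h
  · exact_mod_cast h
  exfalso
  have hsum1 : (∑ H ∈ F, (((id H : Subgroup (G × El p)).index : ℚ))⁻¹) = 1 := by
    apply le_antisymm _ hsum
    rw [← h] at hle
    rwa [mul_inv_cancel₀ hp0.ne'] at hle
  have hdis := Subgroup.pairwiseDisjoint_leftCoset_cover_of_sum_inv_index_eq_one hcov' hsum1
  -- two different members of finite index
  have hall : ∀ H ∈ F, H.index ≠ 0 := by
    intro H hH h0
    have hlt : (∑ H ∈ F, (((id H : Subgroup (G × El p)).index : ℚ))⁻¹) < ∑ _H ∈ F, (p : ℚ)⁻¹ := by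
      apply Finset.sum_lt_sum hterm
      refine ⟨H, hH, ?_⟩
      simp only [id, h0]
      rw [Nat.cast_zero, inv_zero]
      positivity
    rw [Finset.sum_const, nsmul_eq_mul, ← h, mul_inv_cancel₀ hp0.ne'] at hlt
    exact absurd hsum (not_le.mpr hlt)
  have h2 : 1 < F.card := by rw [← h]; exact hp.one_lt
  obtain ⟨A, hA, B, hB, hAB⟩ := Finset.one_lt_card.mp h2
  have := hdis (Finset.mem_coe.mpr (Finset.mem_filter.mpr ⟨hA, ⟨hall A hA⟩⟩))
    (Finset.mem_coe.mpr (Finset.mem_filter.mpr ⟨hB, ⟨hall B hB⟩⟩)) hAB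
  rw [Function.onFun, Set.disjoint_left] at this
  exact this (a := 1) (by simp [A.one_mem]) (by simp [B.one_mem])

/-- There is a group whose semigroup covering number is finite and at least three while its
subgroup covering number is infinite; for every prime `p` there is a group with semigroup covering
number between three and six and subgroup covering number `p + 1`. So it is false that every
group `G` satisfies `σ_s(G) = 2` or `σ_s(G) = σ_g(G)`. -/
theorem result :
    (∃ (G : Type) (_ : Group G), 3 ≤ sigmaS G ∧ sigmaS G ≤ 6 ∧ sigmaG G = ⊤) ∧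
    (∀ p : ℕ, p.Prime → ∃ (G : Type) (_ : Group G),
      3 ≤ sigmaS G ∧ sigmaS G ≤ 6 ∧ sigmaG G = p + 1) ∧
    ¬ (∀ (G : Type) [Group G], sigmaS G = 2 ∨ sigmaS G = sigmaG G) := by
  have h1 : 3 ≤ sigmaS (Gr HW) ∧ sigmaS (Gr HW) ≤ 6 ∧ sigmaG (Gr HW) = ⊤ :=
    ⟨three_le noTotal_Gr, le_six (MonoidHom.id _) Function.surjective_id six six_ne_top six_cover,
      sigmaG_top noFin_Gr⟩
  refine ⟨⟨Gr HW, inferInstance, h1⟩, fun p hp => ?_, fun hall => ?_⟩
  · have : Fact p.Prime := ⟨hp⟩
    refine ⟨Gr HW × El p, inferInstance, three_le (noTotal_prod noTotal_Gr),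
      le_six (MonoidHom.fst _ _) Prod.fst_surjective six six_ne_top six_cover,
      le_antisymm (sigmaG_le _ hp) (le_sigmaG noFin_Gr hp)⟩
  · obtain ⟨h3, h6, hT⟩ := h1
    rcases hall (Gr HW) with h | h
    · rw [h] at h3
      exact absurd h3 (by decide)
    · rw [h, hT] at h6
      exact absurd h6 (by decide)

end Pool.Agent.Results.MP_7fa642_al.CoveringNumbersDiffer
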